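import Pool.Agent.W78.EC.Defs2

set_option autoImplicit false

namespace Pool.Agent.W212.EC

open Finset Pool.Agent.W78.EC

open scoped Classical in
/-- mass of a fibre -/
noncomputable def WW {Ω A : Type} (s : Finset Ω) (w : Ω → ℝ) (F : Ω → A) (a : A) : ℝ :=
  ∑ ω ∈ s.filter (fun ω => F ω = a), w ω

open scoped Classical in
theorem fib {Ω A : Type} (s : Finset Ω) (F : Ω → A) (t : Finset A) (ht : ∀ ω ∈ s, F ω ∈ t)
    (f : Ω → ℝ) :
    ∑ a ∈ t, ∑ ω ∈ s.filter (fun ω => F ω = a), f ω = ∑ ω ∈ s, f ω :=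
  Finset.sum_fiberwise_of_maps_to ht f

open scoped Classical in
theorem ent_eq {Ω A : Type} (s : Finset Ω) (w : Ω → ℝ) (F : Ω → A) :
    ent s w F = - ∑ ω ∈ s, w ω * Real.log (WW s w F (F ω)) := by
  unfold ent
  rw [← fib s F (s.image F) (fun ω hω => mem_image_of_mem F hω)
    (fun ω => w ω * Real.log (WW s w F (F ω))), ← Finset.sum_neg_distrib]
  refine Finset.sum_congr rfl fun a _ => ?_
  have h : ∑ ω ∈ s.filter (fun ω => F ω = a), w ω * Real.log (WW s w F (F ω))
      = ∑ ω ∈ s.filter (fun ω => F ω = a), w ω * Real.log (WW s w F a) := by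
    refine Finset.sum_congr rfl fun ω hω => ?_
    rw [(mem_filter.1 hω).2]
  rw [h, ← Finset.sum_mul]
  unfold Real.negMulLog WW
  ring

open scoped Classical in
theorem WW_nonneg {Ω A : Type} {s : Finset Ω} {w : Ω → ℝ} (hw : ∀ ω ∈ s, 0 ≤ w ω) (F : Ω → A)
    (a : A) : 0 ≤ WW s w F a :=
  Finset.sum_nonneg fun ω hω => hw ω (mem_filter.1 hω).1

open scoped Classical in
theorem WW_le {Ω A B : Type} {s : Finset Ω} {w : Ω → ℝ} (hw : ∀ ω ∈ s, 0 ≤ w ω) (F : Ω → A)
    (G : Ω → B) {ω : Ω} (h : ∀ ω' ∈ s, G ω' = G ω → F ω' = F ω) :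
    WW s w G (G ω) ≤ WW s w F (F ω) := by
  unfold WW
  refine Finset.sum_le_sum_of_subset_of_nonneg ?_ ?_
  · intro x hx
    rw [mem_filter] at hx ⊢
    exact ⟨hx.1, h x hx.1 hx.2⟩
  · intro x hx _
    exact hw x (mem_filter.1 hx).1

open scoped Classical in
theorem WW_pos {Ω A : Type} {s : Finset Ω} {w : Ω → ℝ} (hw : ∀ ω ∈ s, 0 ≤ w ω) (F : Ω → A)
    {ω : Ω} (hω : ω ∈ s) (h : 0 < w ω) : 0 < WW s w F (F ω) := by
  unfold WW
  exact lt_of_lt_of_le h (Finset.single_le_sum (f := w) (fun x hx => hw x (mem_filter.1 hx).1)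
    (mem_filter.2 ⟨hω, rfl⟩))

/-- monotonicity -/
theorem ent_mono {Ω A B : Type} {s : Finset Ω} {w : Ω → ℝ} (hw : ∀ ω ∈ s, 0 ≤ w ω) (F : Ω → A)
    (G : Ω → B) (h : ∀ ω ∈ s, ∀ ω' ∈ s, G ω' = G ω → F ω' = F ω) : ent s w F ≤ ent s w G := by
  rw [ent_eq, ent_eq, neg_le_neg_iff]
  refine Finset.sum_le_sum fun ω hω => ?_
  rcases (hw ω hω).eq_or_lt with h0 | h0
  · rw [← h0]; simp
  · refine mul_le_mul_of_nonneg_left ?_ h0.le
    exact Real.log_le_log (WW_pos hw G hω h0) (WW_le hw F G (fun ω' hω' e => h ω hω ω' hω' e))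

theorem ent_congr {Ω A B : Type} {s : Finset Ω} {w : Ω → ℝ} (hw : ∀ ω ∈ s, 0 ≤ w ω) (F : Ω → A)
    (G : Ω → B) (h : ∀ ω ∈ s, ∀ ω' ∈ s, G ω' = G ω ↔ F ω' = F ω) : ent s w F = ent s w G :=
  le_antisymm (ent_mono hw F G fun ω hω ω' hω' => (h ω hω ω' hω').1)
    (ent_mono hw G F fun ω hω ω' hω' => (h ω hω ω' hω').2)

open scoped Classical in
/-- Gibbs inequality -/
theorem gibbs {Ω A : Type} {s : Finset Ω} {w : Ω → ℝ} (hw : ∀ ω ∈ s, 0 ≤ w ω) (F : Ω → A)
    (q : A → ℝ) (hq : ∀ a, 0 ≤ q a) (hq' : ∀ ω ∈ s, 0 < w ω → 0 < q (F ω))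
    (t : Finset A) (ht : ∀ ω ∈ s, F ω ∈ t) (hsum : ∑ a ∈ t, q a ≤ ∑ ω ∈ s, w ω) :
    ∑ ω ∈ s, w ω * Real.log (q (F ω)) ≤ ∑ ω ∈ s, w ω * Real.log (WW s w F (F ω)) := by
  have h1 : ∑ ω ∈ s, (w ω * Real.log (q (F ω)) - w ω * Real.log (WW s w F (F ω)))
      ≤ ∑ ω ∈ s, (w ω * (q (F ω) / WW s w F (F ω)) - w ω) := by
    refine Finset.sum_le_sum fun ω hω => ?_
    rcases (hw ω hω).eq_or_lt with h0 | h0
    · rw [← h0]; simp
    · have a1 := WW_pos hw F hω h0
      have a2 := hq' ω hω h0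
      rw [← mul_sub, ← Real.log_div a2.ne' a1.ne']
      have := Real.log_le_sub_one_of_pos (div_pos a2 a1)
      nlinarith
  have h2 : ∑ ω ∈ s, w ω * (q (F ω) / WW s w F (F ω)) ≤ ∑ a ∈ t, q a := by
    rw [← fib s F t ht (fun ω => w ω * (q (F ω) / WW s w F (F ω)))]
    refine Finset.sum_le_sum fun a _ => ?_
    have h : ∑ ω ∈ s.filter (fun ω => F ω = a), w ω * (q (F ω) / WW s w F (F ω))
        = ∑ ω ∈ s.filter (fun ω => F ω = a), w ω * (q a / WW s w F a) := by
      refine Finset.sum_congr rfl fun ω hω => ?_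
      rw [(mem_filter.1 hω).2]
    rw [h, ← Finset.sum_mul]
    change WW s w F a * (q a / WW s w F a) ≤ q a
    rcases (WW_nonneg hw F a).eq_or_lt with h0 | h0
    · rw [← h0]; simpa using hq a
    · rw [mul_div_cancel₀ _ h0.ne']
  rw [Finset.sum_sub_distrib, Finset.sum_sub_distrib] at h1
  linarith

open scoped Classical in
theorem sum_WW {Ω A : Type} (s : Finset Ω) (w : Ω → ℝ) (F : Ω → A) :
    ∑ a ∈ s.image F, WW s w F a = ∑ ω ∈ s, w ω :=
  fib s F _ (fun _ hω => mem_image_of_mem F hω) w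

open scoped Classical in
/-- fibres over a coordinate -/
theorem sum_WW_pair {Ω A B : Type} (s : Finset Ω) (w : Ω → ℝ) (D : Ω → A) (Y : Ω → B) (y : B) :
    ∑ d ∈ s.image D, WW s w (fun ω => (D ω, Y ω)) (d, y) = WW s w Y y := by
  unfold WW
  rw [← Finset.sum_fiberwise_of_maps_to (s := s.filter (fun ω => Y ω = y)) (t := s.image D)
    (g := D) (fun ω hω => mem_image_of_mem D (mem_filter.1 hω).1) w]
  refine Finset.sum_congr rfl fun d _ => Finset.sum_congr ?_ fun _ _ => rfl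
  ext ω
  simp only [mem_filter, Prod.mk.injEq]
  tauto

open scoped Classical in
theorem sum_WW_pair' {Ω A B : Type} (s : Finset Ω) (w : Ω → ℝ) (D : Ω → A) (Y : Ω → B) (y : B) :
    ∑ d ∈ s.image D, WW s w (fun ω => (Y ω, D ω)) (y, d) = WW s w Y y := by
  unfold WW
  rw [← Finset.sum_fiberwise_of_maps_to (s := s.filter (fun ω => Y ω = y)) (t := s.image D)
    (g := D) (fun ω hω => mem_image_of_mem D (mem_filter.1 hω).1) w]
  refine Finset.sum_congr rfl fun d _ => Finset.sum_congr ?_ fun _ _ => rfl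
  ext ω
  simp only [mem_filter, Prod.mk.injEq]
  tauto

open scoped Classical in
/-- submodularity -/
theorem submod {Ω A B C : Type} {s : Finset Ω} {w : Ω → ℝ} (hw : ∀ ω ∈ s, 0 ≤ w ω) (D : Ω → A)
    (Y : Ω → B) (Z : Ω → C) :
    ent s w (fun ω => (D ω, (Y ω, Z ω))) + ent s w Y ≤
      ent s w (fun ω => (D ω, Y ω)) + ent s w (fun ω => (Y ω, Z ω)) := by
  have key := gibbs hw (fun ω => (D ω, (Y ω, Z ω)))
    (fun p => WW s w (fun ω => (D ω, Y ω)) (p.1, p.2.1) *
      WW s w (fun ω => (Y ω, Z ω)) (p.2.1, p.2.2) / WW s w Y p.2.1)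
    (fun p => div_nonneg (mul_nonneg (WW_nonneg hw _ _) (WW_nonneg hw _ _)) (WW_nonneg hw _ _))
    (fun ω hω h0 => div_pos (mul_pos (WW_pos hw (fun ω => (D ω, Y ω)) hω h0)
      (WW_pos hw (fun ω => (Y ω, Z ω)) hω h0)) (WW_pos hw Y hω h0))
    (s.image D ×ˢ (s.image Y ×ˢ s.image Z))
    (fun ω hω => by
      simp only [mem_product]
      exact ⟨mem_image_of_mem D hω, mem_image_of_mem Y hω, mem_image_of_mem Z hω⟩)
    (by
      rw [Finset.sum_product_right, Finset.sum_product]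
      have h1 : ∀ y ∈ s.image Y, ∑ z ∈ s.image Z, ∑ d ∈ s.image D,
          WW s w (fun ω => (D ω, Y ω)) (d, y) * WW s w (fun ω => (Y ω, Z ω)) (y, z) /
            WW s w Y y ≤ WW s w Y y := by
        intro y _
        have e : ∑ z ∈ s.image Z, ∑ d ∈ s.image D,
          WW s w (fun ω => (D ω, Y ω)) (d, y) * WW s w (fun ω => (Y ω, Z ω)) (y, z) /
            WW s w Y y = WW s w Y y * WW s w Y y / WW s w Y y := by
          have e1 : ∀ z ∈ s.image Z, ∑ d ∈ s.image D,
              WW s w (fun ω => (D ω, Y ω)) (d, y) * WW s w (fun ω => (Y ω, Z ω)) (y, z) /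
              WW s w Y y = WW s w Y y * WW s w (fun ω => (Y ω, Z ω)) (y, z) / WW s w Y y := by
            intro z _
            rw [← Finset.sum_div, ← Finset.sum_mul, sum_WW_pair]
          rw [Finset.sum_congr rfl e1, ← Finset.sum_div, ← Finset.mul_sum, sum_WW_pair']
        rw [e]
        rcases (WW_nonneg hw Y y).eq_or_lt with h0 | h0
        · rw [← h0]; simp
        · rw [mul_div_assoc, div_self h0.ne', mul_one]
      refine (Finset.sum_le_sum h1).trans ?_
      rw [sum_WW])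
  have h2 : ∑ ω ∈ s, w ω * Real.log (WW s w (fun ω => (D ω, Y ω)) (D ω, Y ω) *
      WW s w (fun ω => (Y ω, Z ω)) (Y ω, Z ω) / WW s w Y (Y ω)) =
      ∑ ω ∈ s, (w ω * Real.log (WW s w (fun ω => (D ω, Y ω)) (D ω, Y ω)) +
      w ω * Real.log (WW s w (fun ω => (Y ω, Z ω)) (Y ω, Z ω)) -
      w ω * Real.log (WW s w Y (Y ω))) := by
    refine Finset.sum_congr rfl fun ω hω => ?_
    rcases (hw ω hω).eq_or_lt with h0 | h0
    · rw [← h0]; simp
    · have a1 := WW_pos hw (fun ω => (D ω, Y ω)) hω h0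
      have a2 := WW_pos hw (fun ω => (Y ω, Z ω)) hω h0
      have a3 := WW_pos hw Y hω h0
      rw [Real.log_div (mul_pos a1 a2).ne' a3.ne', Real.log_mul a1.ne' a2.ne']
      ring
  simp only at key
  rw [h2, Finset.sum_sub_distrib, Finset.sum_add_distrib] at key
  rw [ent_eq, ent_eq, ent_eq, ent_eq]
  linarith

open scoped Classical in
theorem ce : S_CE := by
  intro Ω A B C s w D Y Z hw
  have hsub := submod hw D Y Z
  refine ⟨?_, ?_, ?_, ?_, ?_, ?_, ?_, ?_⟩
  · have := ent_mono hw Y (fun ω => (D ω, Y ω)) (fun ω _ ω' _ h => (Prod.mk.injEq _ _ _ _ ▸ h).2)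
    unfold cE; linarith
  · unfold cE; linarith
  · have e : ent s w (fun ω => ((D ω, Z ω), Y ω)) = ent s w (fun ω => (D ω, (Z ω, Y ω))) :=
      ent_congr hw _ _ (fun ω _ ω' _ => by simp only [Prod.mk.injEq]; tauto)
    unfold cE
    rw [e]; ring
  · intro φ hφ
    have := ent_mono hw (fun ω => (Z ω, Y ω)) (fun ω => (D ω, Y ω)) (fun ω hω ω' hω' h => by
      simp only [Prod.mk.injEq] at h ⊢
      rw [hφ ω hω, hφ ω' hω', h.1, h.2]
      exact ⟨rfl, rfl⟩)
    unfold cE; linarith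
  · intro φ hφ
    have h1 := submod hw D Z Y
    have e1 : ent s w (fun ω => (D ω, (Z ω, Y ω))) = ent s w (fun ω => (D ω, Y ω)) :=
      ent_congr hw _ _ (fun ω hω ω' hω' => by
        simp only [Prod.mk.injEq]
        constructor
        · rintro ⟨a, b⟩; exact ⟨a, by rw [hφ ω hω, hφ ω' hω', b], b⟩
        · rintro ⟨a, _, b⟩; exact ⟨a, b⟩)
    have e2 : ent s w (fun ω => (Z ω, Y ω)) = ent s w Y :=
      ent_congr hw _ _ (fun ω hω ω' hω' => by
        simp only [Prod.mk.injEq]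
        constructor
        · intro b; exact ⟨by rw [hφ ω hω, hφ ω' hω', b], b⟩
        · rintro ⟨_, b⟩; exact b)
    unfold cE; linarith
  · rintro n hn ⟨t, ht, hDt⟩
    have hn0 : (0 : ℝ) < n := by exact_mod_cast hn
    have key := gibbs hw (fun ω => (D ω, Y ω)) (fun p => WW s w Y p.2 / n)
      (fun p => div_nonneg (WW_nonneg hw _ _) hn0.le)
      (fun ω hω h0 => div_pos (WW_pos hw Y hω h0) hn0) (t ×ˢ s.image Y)
      (fun ω hω => by
        simp only [mem_product]; exact ⟨hDt ω hω, mem_image_of_mem Y hω⟩)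
      (by
        rw [Finset.sum_product]
        simp only
        rw [Finset.sum_const, ← Finset.sum_div, sum_WW, nsmul_eq_mul]
        have hT : 0 ≤ ∑ ω ∈ s, w ω := Finset.sum_nonneg hw
        have : (t.card : ℝ) ≤ n := by exact_mod_cast ht
        rw [mul_div_assoc']
        rw [div_le_iff₀ hn0]
        nlinarith)
    have h2 : ∑ ω ∈ s, w ω * Real.log (WW s w Y (Y ω) / n) =
        ∑ ω ∈ s, (w ω * Real.log (WW s w Y (Y ω)) - w ω * Real.log n) := by
      refine Finset.sum_congr rfl fun ω hω => ?_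
      rcases (hw ω hω).eq_or_lt with h0 | h0
      · rw [← h0]; simp
      · rw [Real.log_div (WW_pos hw Y hω h0).ne' hn0.ne']; ring
    simp only at key
    rw [h2, Finset.sum_sub_distrib, ← Finset.sum_mul] at key
    unfold cE
    rw [ent_eq, ent_eq]
    linarith
  · intro ρ hρ hmax
    have hT : ∀ ω : Ω, WW s w (fun _ : Ω => ()) () = ∑ ω ∈ s, w ω := by
      intro _; unfold WW; simp
    unfold cE
    rw [ent_eq, ent_eq]
    have h1 : ∀ ω ∈ s, WW s w (fun ω => (D ω, ())) (D ω, ()) = WW s w D (D ω) := by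
      intro ω _
      unfold WW
      refine Finset.sum_congr ?_ fun _ _ => rfl
      ext x; simp
    have h2 : ∑ ω ∈ s, w ω * Real.log (1 / ρ) ≤ ∑ ω ∈ s,
        (w ω * Real.log (WW s w (fun _ : Ω => ()) ()) -
          w ω * Real.log (WW s w (fun ω => (D ω, ())) (D ω, ()))) := by
      refine Finset.sum_le_sum fun ω hω => ?_
      rcases (hw ω hω).eq_or_lt with h0 | h0
      · rw [← h0]; simp
      · rw [h1 ω hω, hT ω]
        have a1 := WW_pos hw D hω h0
        have a2 : WW s w D (D ω) ≤ ρ * ∑ ω ∈ s, w ω := hmax (D ω)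
        have a3 : 0 < ∑ ω ∈ s, w ω := by
          by_contra hcon
          have hcon := not_lt.1 hcon
          nlinarith
        have a4 := Real.log_le_log a1 a2
        rw [Real.log_mul hρ.ne' a3.ne'] at a4
        rw [one_div, Real.log_inv]
        nlinarith
    rw [← Finset.sum_mul, Finset.sum_sub_distrib] at h2
    linarith
  · intro q hq hsum
    have hT : WW s w (fun _ : Ω => ()) () = ∑ ω ∈ s, w ω := by
      unfold WW; simp
    have hTn : 0 ≤ ∑ ω ∈ s, w ω := Finset.sum_nonneg hw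
    rcases hTn.eq_or_lt with hT0 | hT0
    · have hz : ∀ ω ∈ s, w ω = 0 := by
        intro ω hω
        exact (Finset.sum_eq_zero_iff_of_nonneg hw).1 hT0.symm ω hω
      unfold cE
      rw [ent_eq, ent_eq]
      have z1 : ∀ f : Ω → ℝ, ∑ ω ∈ s, w ω * f ω = 0 := by
        intro f
        refine Finset.sum_eq_zero fun ω hω => ?_
        rw [hz ω hω, zero_mul]
      rw [z1, z1, z1]; simp
    · have key := gibbs hw D (fun a => (∑ ω ∈ s, w ω) * q a)
        (fun a => mul_nonneg hTn (hq a).le) (fun ω _ _ => mul_pos hT0 (hq _)) (s.image D)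
        (fun ω hω => mem_image_of_mem D hω) (by
          rw [← Finset.mul_sum]
          nlinarith)
      unfold cE
      rw [ent_eq, ent_eq]
      have h1 : ∀ ω ∈ s, WW s w (fun ω => (D ω, ())) (D ω, ()) = WW s w D (D ω) := by
        intro ω _
        unfold WW
        refine Finset.sum_congr ?_ fun _ _ => rfl
        ext x; simp
      have h3 : ∑ ω ∈ s, w ω * Real.log (WW s w (fun ω => (D ω, ())) (D ω, ())) =
          ∑ ω ∈ s, w ω * Real.log (WW s w D (D ω)) :=
        Finset.sum_congr rfl fun ω hω => by rw [h1 ω hω]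
      have h4 : ∑ ω ∈ s, w ω * Real.log ((∑ ω ∈ s, w ω) * q (D ω)) =
          ∑ ω ∈ s, (w ω * Real.log (∑ ω ∈ s, w ω) + w ω * Real.log (q (D ω))) := by
        refine Finset.sum_congr rfl fun ω hω => ?_
        rw [Real.log_mul hT0.ne' (hq _).ne']; ring
      rw [h4, Finset.sum_add_distrib] at key
      rw [h3, hT]
      have h5 : ∑ ω ∈ s, w ω * -Real.log (q (D ω)) = - ∑ ω ∈ s, w ω * Real.log (q (D ω)) := by
        rw [← Finset.sum_neg_distrib]
        exact Finset.sum_congr rfl fun ω _ => by ring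
      rw [h5]
      linarith

end Pool.Agent.W212.EC
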